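import Mathlib

/-! Arithmetic end of the linear range for MP_008206 (text of helper47, 03:12Z). -/

namespace Pool.H10Lin

theorem lin_end (w k D d kap h inc F T : ℤ)
    (hw0 : 0 ≤ w) (hwk : w + 3 ≤ k) (hD : 5 * (k - 2) ≤ D)
    (hkap : 0 ≤ kap) (hd0 : 0 ≤ d) (hkd : kap + d ≤ w)
    (hh0 : 0 ≤ h) (hinc : 0 ≤ inc) (hF0 : 0 ≤ F) (hF1 : F ≤ D - 1)
    (hdF : d = 0 → F = 0)
    (h0 : D * h - w * (k - 2) ≤ T)
    (hA : w - kap + w * d - w * h + (D - 1 - kap) * h - d * F ≤ T)
    (hC : w + w * d - 2 * kap - (w - inc) * h + F ≤ T)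
    (hB : w - kap + w * d - w * h + (w + 1 - d - inc) * F - (w - d) * (k - 1) ≤ T) :
    0 ≤ T := by
  by_contra hT
  have hT1 : T ≤ -1 := by omega
  have hD5 : 5 * (w + 1) ≤ D := by linarith
  have hDw : 0 ≤ D - 1 - 2 * w := by linarith
  -- d = 0
  rcases eq_or_lt_of_le hd0 with hd | hd
  · have hd' : d = 0 := hd.symm
    have hF := hdF hd'
    subst hd'
    rw [hF] at hA
    have h1 : 0 ≤ (D - 1 - kap - w) * h := mul_nonneg (by linarith) hh0
    nlinarith
  have hd1 : 1 ≤ d := hd
  have hw1 : 1 ≤ w := by linarith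
  have hkap1 : kap ≤ w - d := by linarith
  have hinch : 0 ≤ inc * h := mul_nonneg hinc hh0
  -- (A) simplified
  have hA' : 1 + d + w * d + (D - 1 - 2 * w + d) * h ≤ d * F := by
    have h1 : kap * h ≤ (w - d) * h := mul_le_mul_of_nonneg_right hkap1 hh0
    nlinarith
  -- (C) simplified
  have hC' : inc * h ≤ w * h - w - w * d + 2 * (w - d) - F - 1 := by
    nlinarith
  rcases lt_trichotomy h d with hhd | hhd | hhd
  · have h1 : w * 1 ≤ w * (d - h) := mul_le_mul_of_nonneg_left (by linarith) hw0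
    nlinarith
  · subst hhd
    have h1 : D - w + h + 1 ≤ F := by
      by_contra hlt
      have h2 : F ≤ D - w + h := by omega
      have h3 : h * F ≤ h * (D - w + h) := mul_le_mul_of_nonneg_left h2 hh0
      nlinarith
    nlinarith
  have hh1 : d + 1 ≤ h := hhd
  have hF2 : D - w + d + 1 ≤ F := by
    by_contra hlt
    have h2 : F ≤ D - w + d := by omega
    have h3 : d * F ≤ d * (D - w + d) := mul_le_mul_of_nonneg_left h2 hd0
    have h4 : (D - 1 - 2 * w + d) * d ≤ (D - 1 - 2 * w + d) * h :=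
      mul_le_mul_of_nonneg_left (by linarith) (by linarith)
    nlinarith
  -- (h - d)(D - 1 - 2w + d) <= d w
  have h5 : (h - d) * (D - 1 - 2 * w + d) ≤ d * w := by
    have h6 : d * F ≤ d * (D - 1) := mul_le_mul_of_nonneg_left hF1 hd0
    nlinarith
  have h7 : inc * h ≤ w * (h - d) := by nlinarith
  have h8 : inc * (D - 1 - 2 * w) ≤ w * w := by
    have h9 : (inc * h) * (D - 1 - 2 * w) ≤ (w * (h - d)) * (D - 1 - 2 * w) :=
      mul_le_mul_of_nonneg_right h7 hDw
    have h10 : w * ((h - d) * (D - 1 - 2 * w)) ≤ w * ((h - d) * (D - 1 - 2 * w + d)) := by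
      apply mul_le_mul_of_nonneg_left _ hw0
      apply mul_le_mul_of_nonneg_left _ (by linarith)
      linarith
    have h11 : w * ((h - d) * (D - 1 - 2 * w + d)) ≤ w * (d * w) :=
      mul_le_mul_of_nonneg_left h5 hw0
    have h12 : w * (d * w) ≤ (w * w) * h := by
      have : w * w * d ≤ w * w * h := mul_le_mul_of_nonneg_left (by linarith) (mul_nonneg hw0 hw0)
      nlinarith
    have h13 : (inc * (D - 1 - 2 * w)) * h ≤ (w * w) * h := by
      calc (inc * (D - 1 - 2 * w)) * h = (inc * h) * (D - 1 - 2 * w) := by ring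
        _ ≤ (w * (h - d)) * (D - 1 - 2 * w) := h9
        _ = w * ((h - d) * (D - 1 - 2 * w)) := by ring
        _ ≤ _ := h10
        _ ≤ _ := h11
        _ ≤ _ := h12
    exact le_of_mul_le_mul_right h13 (by linarith)
  have h14 : inc * (3 * w + 4) ≤ w * w :=
    le_trans (mul_le_mul_of_nonneg_left (by linarith) hinc) h8
  have h15 : 3 * inc < w := by
    by_contra hlt
    have h16 : w ≤ 3 * inc := by omega
    have h17 : w * w ≤ 3 * inc * w := mul_le_mul_of_nonneg_right h16 hw0
    have h18 : 1 ≤ inc := by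
      by_contra h19
      have : inc ≤ 0 := by omega
      linarith
    nlinarith
  have h20 : 5 * h < w := by
    have h21 : 5 * (k - 2) * h ≤ D * h := mul_le_mul_of_nonneg_right hD hh0
    have h22 : (5 * h) * (k - 2) < w * (k - 2) := by nlinarith
    exact lt_of_mul_lt_mul_right h22 (by linarith)
  -- (B)
  have hB' : (w + 1 - d - inc) * F < (w - d) * (k - 1) + w * (h - d) := by nlinarith
  have h23 : 15 * (w + 1 - d - inc) ≥ 7 * w + 15 := by linarith
  have h24 : 4 * (k - 2) + 3 ≤ F := by linarith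
  have h25 : (7 * w + 15) * (4 * (k - 2) + 3) ≤ (15 * (w + 1 - d - inc)) * F := by
    apply mul_le_mul h23 h24 (by linarith) (by linarith)
  have h26 : (w - d) * (k - 1) ≤ w * (k - 1) := mul_le_mul_of_nonneg_right (by linarith) (by linarith)
  have h27 : 5 * (w * (h - d)) ≤ w * w := by
    have : w * (5 * (h - d)) ≤ w * w := mul_le_mul_of_nonneg_left (by linarith) hw0
    linarith
  have h28 : w * w ≤ w * (k - 3) := mul_le_mul_of_nonneg_left (by linarith) hw0
  have h29 : 0 ≤ w * (k - 3) := mul_nonneg hw0 (by linarith)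
  nlinarith

end Pool.H10Lin
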