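import Mathlib
import Pool.Agent.H37.ForcingDefs
import Pool.Agent.H99.SIF.Un

/-! Glue between the integer matrices of `ExactRange` and the unordered Bool form `SIFU`. -/

namespace Pool.H10Lin

open Pool.Agent.H37.Forcing Finset

/-- the Bool array of the ones of `A` -/
def bo {n : ℕ} (A : Matrix (Fin n) (Fin n) ℕ) : Fin n → Fin n → Bool := fun i j => decide (A i j = 1)

theorem bo_iff {n : ℕ} (A : Matrix (Fin n) (Fin n) ℕ) (i j : Fin n) :
    bo A i j = true ↔ A i j = 1 := by simp [bo]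

theorem U_of_forcing {n k : ℕ} {A : Matrix (Fin n) (Fin n) ℕ}
    (hA : StronglyForcing (1 : Matrix (Fin k) (Fin k) ℕ) A) : SIFU.U (bo A) k := by
  intro i j hij
  rw [bo_iff] at hij
  obtain ⟨ρ, γ, ⟨s, hs⟩, ⟨s', hs'⟩, hQ⟩ := hA i j hij
  have hE : ∀ a b, A (ρ a) (γ b) = if a = b then 1 else 0 := by
    intro a b
    have := congrFun (congrFun hQ a) b
    rw [Matrix.submatrix_apply, Matrix.one_apply] at this
    exact this
  refine ⟨univ.image ρ, univ.image γ, ⟨?_, ?_, ?_, ?_⟩, ?_, ?_⟩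
  · rw [card_image_of_injective _ ρ.injective]; simp
  · rw [card_image_of_injective _ γ.injective]; simp
  · intro a ha
    obtain ⟨t, _, rfl⟩ := mem_image.1 ha
    rw [card_eq_one]
    refine ⟨γ t, ?_⟩
    ext d
    rw [mem_inter, mem_image, SIFU.mem_Nr, mem_singleton, bo_iff]
    constructor
    · rintro ⟨⟨t', _, rfl⟩, h⟩
      rw [hE] at h
      by_cases htt : t = t'
      · rw [htt]
      · rw [if_neg htt] at h; omega
    · rintro rfl
      exact ⟨⟨t, mem_univ _, rfl⟩, by rw [hE, if_pos rfl]⟩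
  · intro a ha
    obtain ⟨t, _, rfl⟩ := mem_image.1 ha
    rw [card_eq_one]
    refine ⟨ρ t, ?_⟩
    ext d
    rw [mem_inter, mem_image, SIFU.mem_Nc, mem_singleton, bo_iff]
    constructor
    · rintro ⟨⟨t', _, rfl⟩, h⟩
      rw [hE] at h
      by_cases htt : t' = t
      · rw [htt]
      · rw [if_neg htt] at h; omega
    · rintro rfl
      exact ⟨⟨t, mem_univ _, rfl⟩, by rw [hE, if_pos rfl]⟩
  · rw [← hs]; exact mem_image_of_mem _ (mem_univ _)
  · rw [← hs']; exact mem_image_of_mem _ (mem_univ _)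

theorem sum_eq {n : ℕ} {A : Matrix (Fin n) (Fin n) ℕ} (h01 : ZeroOne A) :
    ∑ i, ∑ j, A i j = (SIFU.E (bo A)).card := by
  rw [SIFU.card_E_rows]
  apply Finset.sum_congr rfl
  intro i _
  unfold SIFU.Nr
  rw [card_filter]
  apply Finset.sum_congr rfl
  intro j _
  rcases h01 i j with h | h
  · simp [bo, h]
  · simp [bo, h]

/-- the integer bound from the unordered natural bound -/
theorem bound_of_U {n k : ℕ} (hk : 2 ≤ k) (hkn : k ≤ n) {A : Matrix (Fin n) (Fin n) ℕ}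
    (h01 : ZeroOne A)
    (h : (SIFU.E (bo A)).card ≤ (n - k + 1) ^ 2 + (n - 1)) :
    ((∑ i, ∑ j, A i j : ℕ) : ℤ) ≤ (n : ℤ) ^ 2 - (2 * k - 3) * n - (2 * k - k ^ 2) := by
  rw [sum_eq h01]
  have h2 : ((SIFU.E (bo A)).card : ℤ) ≤ (((n - k + 1) ^ 2 + (n - 1) : ℕ) : ℤ) := by
    exact_mod_cast h
  refine h2.trans (le_of_eq ?_)
  have h3 : 1 ≤ n := by omega
  push_cast [Nat.cast_sub hkn, Nat.cast_sub h3]
  ring

end Pool.H10Lin
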