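import Mathlib

/-! Splitting of the range of the new `ExactRange` (MP_008206). -/

namespace Pool.H10Lin

/-- the hypothesis of `ExactRange` splits into the range of `SIFU.full21` and `n ≤ k + 5` -/
theorem range_split3 (k j : ℕ)
    (h : k ≤ 9 ∨ k + j ≤ k + 9 ∨
      4 * k * (k + j) + 4 * k ≤ (k + j) ^ 2 + 2 * k ^ 2 + 9 * (k + j)) :
    ((k ≤ j + 8 ∧ k ^ 2 + 2 * k * j ≤ j ^ 2 + 9 * j + 5 * k) ∨ (k ≤ 9 ∧ 6 ≤ j) ∨ j = 6 ∨ j = 7 ∨
      j = 8 ∨ j = 9) ∨ k + j ≤ k + 5 := by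
  rcases h with h | h | h
  · rcases Nat.lt_or_ge j 6 with h0 | h0
    · right; omega
    · left; right; left; exact ⟨h, h0⟩
  · rcases Nat.lt_or_ge j 6 with h0 | h0
    · right; omega
    · left; right; right; omega
  · left; left
    have h2 : k ^ 2 + 2 * k * j ≤ j ^ 2 + 9 * j + 5 * k := by nlinarith
    refine ⟨?_, h2⟩
    by_contra hlt
    obtain ⟨t, rfl⟩ : ∃ t, k = j + 9 + t := ⟨k - (j + 9), by omega⟩
    nlinarith

/-- the hypothesis of the 03:33Z form of `ExactRange` splits into the range of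
`SIFU.full_range` and `n ≤ k + 5` -/
theorem range_split2 (k j : ℕ)
    (h : k ≤ 8 ∨ k + j ≤ k + 7 ∨ k + j = k + 9 ∨
      4 * k * (k + j) + 4 * k ≤ (k + j) ^ 2 + 2 * k ^ 2 + 9 * (k + j)) :
    ((k ≤ j + 8 ∧ k ^ 2 + 2 * k * j ≤ j ^ 2 + 9 * j + 5 * k) ∨ (k ≤ 8 ∧ 6 ≤ j) ∨ j = 6 ∨ j = 7 ∨
      j = 9) ∨ k + j ≤ k + 5 := by
  rcases h with h | h | h | h
  · rcases Nat.lt_or_ge j 6 with h0 | h0
    · right; omega
    · left; right; left; exact ⟨h, h0⟩
  · rcases Nat.lt_or_ge j 6 with h0 | h0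
    · right; omega
    · left; right; right; omega
  · left; right; right; omega
  · left; left
    have h2 : k ^ 2 + 2 * k * j ≤ j ^ 2 + 9 * j + 5 * k := by nlinarith
    refine ⟨?_, h2⟩
    by_contra hlt
    obtain ⟨t, rfl⟩ : ∃ t, k = j + 9 + t := ⟨k - (j + 9), by omega⟩
    nlinarith

/-- the hypothesis of `ExactRange` splits into the range of `SIFU.full23` and `n ≤ k + 5` -/
theorem range_split4 (k j : ℕ)
    (h : k ≤ 10 ∨ k + j ≤ k + 10 ∨ k + j = k + 12 ∨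
      4 * k * (k + j) + 4 * k ≤ (k + j) ^ 2 + 2 * k ^ 2 + 9 * (k + j)) :
    ((k ≤ j + 8 ∧ k ^ 2 + 2 * k * j ≤ j ^ 2 + 9 * j + 5 * k) ∨ (k ≤ 10 ∧ 6 ≤ j) ∨ j = 6 ∨ j = 7 ∨
      j = 8 ∨ j = 9 ∨ j = 10 ∨ j = 12) ∨ k + j ≤ k + 5 := by
  rcases h with h | h | h | h
  · rcases Nat.lt_or_ge j 6 with h0 | h0
    · right; omega
    · left; right; left; exact ⟨h, h0⟩
  · rcases Nat.lt_or_ge j 6 with h0 | h0
    · right; omega
    · left; right; right; omega
  · left; right; right; omega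
  · left; left
    have h2 : k ^ 2 + 2 * k * j ≤ j ^ 2 + 9 * j + 5 * k := by nlinarith
    refine ⟨?_, h2⟩
    by_contra hlt
    obtain ⟨t, rfl⟩ : ∃ t, k = j + 9 + t := ⟨k - (j + 9), by omega⟩
    nlinarith

/-- the hypothesis of `ExactRange` splits into the range of `SIFU.full24` and `n ≤ k + 5` -/
theorem range_split5 (k j : ℕ)
    (h : k ≤ 10 ∨ k + j ≤ k + 13 ∨
      4 * k * (k + j) + 4 * k ≤ (k + j) ^ 2 + 2 * k ^ 2 + 9 * (k + j)) :
    ((k ≤ j + 8 ∧ k ^ 2 + 2 * k * j ≤ j ^ 2 + 9 * j + 5 * k) ∨ (k ≤ 10 ∧ 6 ≤ j) ∨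
      (6 ≤ j ∧ j ≤ 13)) ∨ k + j ≤ k + 5 := by
  rcases h with h | h | h
  · rcases Nat.lt_or_ge j 6 with h0 | h0
    · right; omega
    · left; right; left; exact ⟨h, h0⟩
  · rcases Nat.lt_or_ge j 6 with h0 | h0
    · right; omega
    · left; right; right; omega
  · left; left
    have h2 : k ^ 2 + 2 * k * j ≤ j ^ 2 + 9 * j + 5 * k := by nlinarith
    refine ⟨?_, h2⟩
    by_contra hlt
    obtain ⟨t, rfl⟩ : ∃ t, k = j + 9 + t := ⟨k - (j + 9), by omega⟩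
    nlinarith

/-- the hypothesis of `ExactRange` splits into the range of `SIFU.full24`, the three cases
`k = 11`, `n = 25, 26, 27`, and `n ≤ k + 5` -/
theorem range_split6 (k j : ℕ)
    (h : k ≤ 11 ∨ k + j ≤ k + 13 ∨
      4 * k * (k + j) + 4 * k ≤ (k + j) ^ 2 + 2 * k ^ 2 + 9 * (k + j)) :
    ((k ≤ j + 8 ∧ k ^ 2 + 2 * k * j ≤ j ^ 2 + 9 * j + 5 * k) ∨ (k ≤ 10 ∧ 6 ≤ j) ∨
      (6 ≤ j ∧ j ≤ 13)) ∨ k + j ≤ k + 5 ∨ (k = 11 ∧ 14 ≤ j ∧ j ≤ 16) := by
  rcases h with h | h | h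
  · rcases Nat.lt_or_ge j 6 with h0 | h0
    · right; left; omega
    · rcases Nat.lt_or_ge k 11 with h1 | h1
      · left; right; left; exact ⟨by omega, h0⟩
      · have hk : k = 11 := by omega
        subst hk
        rcases Nat.lt_or_ge j 14 with h2 | h2
        · left; right; right; omega
        · rcases Nat.lt_or_ge j 17 with h3 | h3
          · right; right; omega
          · left; left
            constructor
            · omega
            · nlinarith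
  · rcases Nat.lt_or_ge j 6 with h0 | h0
    · right; left; omega
    · left; right; right; omega
  · left; left
    have h2 : k ^ 2 + 2 * k * j ≤ j ^ 2 + 9 * j + 5 * k := by nlinarith
    refine ⟨?_, h2⟩
    by_contra hlt
    obtain ⟨t, rfl⟩ : ∃ t, k = j + 9 + t := ⟨k - (j + 9), by omega⟩
    nlinarith

end Pool.H10Lin
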